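import Pool.Agent.Helper88.QR.StmtsB
import Pool.Agent.Helper88.QR.HitB

/-!
# Row B04: the contour structure of a pointed quadrangulation is a code
-/

namespace QRB

open QR Classical

namespace H17

variable {D : Type} [Fintype D] {m : RMap D} {lam : D → ℕ}

omit [Fintype D] in
theorem fc_eq_iff (m : RMap D) (d d' : D) : m.fc d = m.fc d' ↔ m.face.SameCycle d d' :=
  Quotient.eq (r := Equiv.Perm.SameCycle.setoid m.face)

omit [Fintype D] in
theorem tail_eq_iff (m : RMap D) (d d' : D) : m.tail d = m.tail d' ↔ m.rot.SameCycle d d' :=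
  Quotient.eq (r := Equiv.Perm.SameCycle.setoid m.rot)

theorem lam_sc (h : PLM m lam) {d d' : D} (hs : m.rot.SameCycle d d') : lam d = lam d' := by
  obtain ⟨i, _, _, hi⟩ := hs.exists_pow_eq''
  have key : ∀ n : ℕ, lam ((m.rot ^ n) d) = lam d := by
    intro n
    induction n with
    | zero => simp
    | succ n ih => rw [pow_succ', Equiv.Perm.mul_apply, h.rot, ih]
  rw [← hi, key]

omit [Fintype D] in
theorem not_des_iff (h : PLM m lam) (d : D) : ¬ Des m lam d ↔ Des m lam (m.opp d) := by
  unfold Des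
  rw [m.opp_opp]
  rcases h.opp d with h1 | h1 <;> omega

theorem card_dn (h : PLM m lam) : Nat.card D = 2 * Nat.card (Dn m lam) := by
  have h1 : Nat.card D = Nat.card ({d // Des m lam d} ⊕ {d // ¬ Des m lam d}) :=
    Nat.card_congr (Equiv.sumCompl (Des m lam)).symm
  have h2 : Nat.card {d // ¬ Des m lam d} = Nat.card {d // Des m lam d} :=
    Nat.card_congr (Equiv.subtypeEquiv m.opp (fun d => not_des_iff h d))
  rw [Nat.card_sum, h2] at h1
  change Nat.card D = 2 * Nat.card {d // Des m lam d}
  omega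

theorem card_face (m : RMap D) (o : D) (N P : ℕ) (hq : m.IsQuad o N P) :
    Nat.card m.Face = N + 1 := by
  have : Fintype m.Face := Fintype.ofFinite _
  have h1 : Nat.card D = Nat.card (Σ φ : m.Face, {d // m.fc d = φ}) :=
    Nat.card_congr (Equiv.sigmaFiberEquiv m.fc).symm
  rw [Nat.card_sigma] at h1
  have h2 : ∀ d : D, Nat.card {d' // m.fc d' = m.fc d} = m.fdeg d := by
    intro d
    refine Nat.card_congr (Equiv.subtypeEquivRight (fun d' => ?_))
    rw [fc_eq_iff]
    exact ⟨fun h => h.symm, fun h => h.symm⟩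
  have h3 : ∀ φ : m.Face, φ ≠ m.fc o → Nat.card {d' // m.fc d' = φ} = 4 := by
    intro φ hφ
    obtain ⟨d, rfl⟩ : ∃ d, m.fc d = φ := Quotient.exists_rep φ
    rw [h2]
    apply hq.inner
    intro hs
    exact hφ ((fc_eq_iff m _ _).2 hs.symm)
  rw [← Finset.add_sum_erase _ _ (Finset.mem_univ (m.fc o)), h2, hq.outer,
    Finset.sum_congr rfl (fun φ hφ => h3 φ (Finset.ne_of_mem_erase hφ)), Finset.sum_const,
    Finset.card_erase_of_mem (Finset.mem_univ _), Finset.card_univ, hq.card] at h1
  have h4 : 0 < Fintype.card m.Face := Fintype.card_pos_iff.2 ⟨m.fc o⟩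
  rw [Nat.card_eq_fintype_card]
  simp only [smul_eq_mul] at h1
  omega

omit [Fintype D] in
/-- the first return map is transitive on the down darts of a face -/
theorem alpha_sc {α : Equiv.Perm (Dn m lam)}
    (ha : ∀ c : Dn m lam, Hit m.face (Des m lam) c.1 (α c).1) :
    ∀ (n : ℕ) (c c' : Dn m lam), (m.face ^ n) c.1 = c'.1 → α.SameCycle c c' := by
  intro n
  induction n using Nat.strong_induction_on with
  | _ n ih =>
    intro c c' h
    rcases Nat.eq_zero_or_pos n with h0 | h0
    · subst h0
      have : c = c' := Subtype.ext (by simpa using h)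
      rw [this]
    · obtain ⟨k, hk1, hk2, _, hk4⟩ := ha c
      have hkn : k ≤ n := by
        by_contra hlt
        push Not at hlt
        apply hk4 n h0 hlt
        rw [h]
        exact c'.2
      have h1 : (m.face ^ (n - k)) (α c).1 = c'.1 := by
        rw [← hk2, ← Equiv.Perm.mul_apply, ← pow_add, Nat.sub_add_cancel hkn, h]
      have h2 := ih (n - k) (by omega) (α c) c' h1
      exact Equiv.Perm.sameCycle_apply_left.1 h2

end H17

open H17

theorem st_B04 (h3 : ST_B03) : ST_B04 := by
  intro D _ m o N P lam v0 τ α hP hq hp hv0 hc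
  have hN := hq.card
  have hDn := card_dn hp
  have hF := card_face m o N P hq
  have hV : Nat.card m.Vert = N + P + 1 := by
    have h := hq.planar.2.2
    rw [hF, hN] at h
    omega
  have hV' : Nat.card {v : m.Vert // v ≠ v0} = N + P := by
    have : Fintype m.Vert := Fintype.ofFinite _
    have h1 : Nat.card m.Vert = Nat.card ({v // v = v0} ⊕ {v // ¬ v = v0}) :=
      Nat.card_congr (Equiv.sumCompl (fun v => v = v0)).symm
    have h2 : Nat.card {v : m.Vert // v = v0} = 1 := Nat.card_unique
    rw [Nat.card_sum, h2, hV] at h1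
    change Nat.card {v : m.Vert // ¬ v = v0} = N + P
    omega
  have hface : ∀ d : D, 2 * Nat.card {c : Dn m lam // m.fc c.1 = m.fc d} = m.fdeg d := by
    intro d
    rw [← h3 D m lam hp d]
    congr 1
    refine Nat.card_congr (Equiv.subtypeEquivRight (fun c => ?_))
    rw [fc_eq_iff]
    exact ⟨fun h => h.symm, fun h => h.symm⟩
  have hsc : ∀ c c' : Dn m lam, m.fc c.1 = m.fc c'.1 → α.SameCycle c c' := by
    intro c c' h
    obtain ⟨i, _, _, hi⟩ := ((fc_eq_iff m _ _).1 h).exists_pow_eq''
    exact alpha_sc hc.ha i c c' hi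
  have hfa : ∀ c : Dn m lam, m.fc (α c).1 = m.fc c.1 := by
    intro c
    rw [fc_eq_iff]
    exact (hc.ha c).sameCycle.symm
  have hne : ∀ c : Dn m lam, m.tail c.1 ≠ v0 := by
    intro c h
    have h1 := (hv0 c.1).2 h
    have h2 := c.2
    unfold Des at h2
    omega
  refine ⟨by omega, hV', ?_, fun c => ⟨m.tail c.1, hne c⟩, fun c => rfl, ?_⟩
  · have h := hface o
    rw [hq.outer] at h
    omega
  · refine
      { cyc := hc.cyc, vt_eq := ?_, fc_eq := hfa, vt_surj := ?_, fc_surj := ?_, euler := ?_,
        lab_vt := ?_, down := hc.down, pos := ?_, one := ?_, inv := ?_, outer := ?_ }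
    · intro c
      apply Subtype.ext
      change m.tail (τ c).1 = m.tail (α c).1
      rw [tail_eq_iff]
      have h := (hc.ht c).sameCycle
      rw [Equiv.Perm.sameCycle_inv] at h
      exact h.symm
    · rintro ⟨v, hv⟩
      obtain ⟨d, rfl⟩ : ∃ d, m.tail d = v := Quotient.exists_rep v
      have h1 : 1 ≤ lam d := by
        by_contra h0
        exact hv ((hv0 d).1 (by omega))
      obtain ⟨d', hs, hd⟩ := hp.low d h1
      refine ⟨⟨d', hd⟩, Subtype.ext ?_⟩
      exact ((tail_eq_iff m _ _).2 hs).symm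
    · intro φ
      obtain ⟨d, rfl⟩ : ∃ d, m.fc d = φ := Quotient.exists_rep φ
      have h1 := hface d
      have h2 : 0 < m.fdeg d := by
        have : Nonempty {d' : D // m.face.SameCycle d d'} := ⟨⟨d, Equiv.Perm.SameCycle.refl _ _⟩⟩
        exact Nat.card_pos
      have h4 : 0 < Nat.card {c : Dn m lam // m.fc c.1 = m.fc d} := by omega
      obtain ⟨⟨c, hc1⟩⟩ := (Nat.card_pos_iff.1 h4).1
      exact ⟨c, hc1⟩
    · rw [hV', hF]
      omega
    · intro c c' h
      have h1 : m.tail c.1 = m.tail c'.1 := congrArg Subtype.val h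
      exact lam_sc hp ((tail_eq_iff m _ _).1 h1)
    · intro c
      have h2 := c.2
      unfold Des at h2
      change 1 ≤ lam c.1
      omega
    · obtain ⟨d, hd⟩ := hp.ex
      have h1 : lam (m.opp d) = 1 := by
        rcases hp.opp d with h | h <;> omega
      refine ⟨⟨m.opp d, ?_⟩, h1⟩
      unfold Des
      rw [m.opp_opp, hd, h1]
    · intro c hco
      have h1 := hface c.1
      have h2 : m.fdeg c.1 = 4 := by
        apply hq.inner
        intro hs
        exact hco ((fc_eq_iff m _ _).2 hs.symm)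
      rw [h2] at h1
      have h4 : Nat.card {x : Dn m lam // m.fc x.1 = m.fc c.1} = 2 := by omega
      have hac : α c ≠ c := by
        intro hfix
        have h5 : ∀ x : {x : Dn m lam // m.fc x.1 = m.fc c.1}, x = ⟨c, rfl⟩ := by
          rintro ⟨x, hx⟩
          apply Subtype.ext
          have h6 := hsc c x hx.symm
          obtain ⟨i, hi⟩ := h6
          change x = c
          rw [← hi]
          exact Equiv.Perm.zpow_apply_eq_self_of_apply_eq_self hfix i
        have h7 : Nat.card {x : Dn m lam // m.fc x.1 = m.fc c.1} = 1 := by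
          rw [Nat.card_eq_one_iff_unique]
          exact ⟨⟨fun a b => by rw [h5 a, h5 b]⟩, ⟨⟨c, rfl⟩⟩⟩
        omega
      refine ⟨?_, hac⟩
      rw [Nat.card_eq_two_iff' (⟨α c, hfa c⟩ : {x : Dn m lam // m.fc x.1 = m.fc c.1})] at h4
      obtain ⟨y, _, hy2⟩ := h4
      have h5 := hy2 ⟨c, rfl⟩ (fun h => hac (congrArg Subtype.val h).symm)
      have h6 := hy2 ⟨α (α c), (hfa (α c)).trans (hfa c)⟩
        (fun h => hac (α.injective (congrArg Subtype.val h)))
      rw [← h5] at h6
      exact congrArg Subtype.val h6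
    · intro c c' h h'
      exact hsc c c' (h.trans h'.symm)

end QRB
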