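import Pool.Agent.Helper58.CP.Stmts

/-!
# Row COT: the complement of a spanning tree connects the faces
-/

namespace QD17

open Finset Classical CP

theorem st_COT : ST_COT := by
  intro D V F _ _ _ rot opp vt fc T r hoo hvt hfc hfs hT hconn hK S hS hcl
  have hrot : ∀ d, fc (rot d) = fc (opp d) := by
    intro d
    have h := hfc (opp d)
    rw [hoo] at h
    exact h
  have hneg : ∀ x : ZMod 2, -x = x := by decide
  have hadd : ∀ x : ZMod 2, x + x = 0 := by decide
  have hh : ∀ d, (if fc d ∈ S then (1 : ZMod 2) else 0) + (if fc (opp d) ∈ S then 1 else 0) = 0 := by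
    refine hK (fun d => (if fc d ∈ S then (1 : ZMod 2) else 0) + (if fc (opp d) ∈ S then 1 else 0))
      ?_ ?_ ?_
    · intro d
      simp only [hoo, hneg]
      exact add_comm _ _
    · intro d hd
      by_cases h1 : fc d ∈ S
      · have h2 := hcl d hd h1
        simp only [h1, h2, if_true]
        exact hadd 1
      · have h2 : fc (opp d) ∉ S := by
          intro h3
          have h4 : opp d ∉ T := by
            intro h5
            have h6 := hT _ h5
            rw [hoo] at h6
            exact hd h6
          have h5 := hcl _ h4 h3
          rw [hoo] at h5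
          exact h1 h5
        simp only [h1, h2, if_false, add_zero]
    · intro v _
      rw [Finset.sum_add_distrib]
      have h1 : ∑ d with vt d = v, (if fc (opp d) ∈ S then (1 : ZMod 2) else 0) =
          ∑ d with vt d = v, (if fc d ∈ S then (1 : ZMod 2) else 0) := by
        refine Finset.sum_bij (fun d _ => rot d) ?_ ?_ ?_ ?_
        · intro d hd
          simp only [Finset.mem_filter, Finset.mem_univ, true_and] at hd ⊢
          rw [hvt]; exact hd
        · intro a _ b _ hab
          exact rot.injective hab
        · intro b hb
          simp only [Finset.mem_filter, Finset.mem_univ, true_and] at hb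
          refine ⟨rot.symm b, ?_, rot.apply_symm_apply b⟩
          simp only [Finset.mem_filter, Finset.mem_univ, true_and]
          have h2 := hvt (rot.symm b)
          rw [rot.apply_symm_apply] at h2
          rw [← h2]; exact hb
        · intro d _
          rw [hrot]
      rw [h1]
      exact hadd _
  have hiff : ∀ d, fc d ∈ S → fc (opp d) ∈ S := by
    intro d h1
    by_contra h2
    have h3 := hh d
    simp only [h1, h2, if_true, if_false, add_zero] at h3
    exact absurd h3 (by decide)
  have huniv : {d | fc d ∈ S} = (Set.univ : Set D) := by
    refine hconn _ ?_ ?_ ?_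
    · obtain ⟨φ, hφ⟩ := hS
      obtain ⟨d, hd⟩ := hfs φ
      exact ⟨d, by simp only [Set.mem_ofPred_eq]; rw [hd]; exact hφ⟩
    · intro d hd
      simp only [Set.mem_ofPred_eq] at hd ⊢
      rw [hrot]; exact hiff d hd
    · intro d hd
      simp only [Set.mem_ofPred_eq] at hd ⊢
      exact hiff d hd
  ext φ
  constructor
  · intro _; trivial
  · intro _
    obtain ⟨d, hd⟩ := hfs φ
    have h1 : d ∈ {d | fc d ∈ S} := by rw [huniv]; trivial
    simp only [Set.mem_ofPred_eq] at h1
    rw [← hd]; exact h1

end QD17
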